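import Pool.Agent.K7.H56.U.V
import Pool.Agent.K7.H70.SM.C

/-!
# The value of the L-function at one, with arbitrary ramification above three
-/

set_option autoImplicit false
set_option linter.unusedSectionVars false

namespace Pool.Agent.K7.H56.U2

open NumberField IsDedekindDomain WithZero WeierstrassCurve
open Pool.Agent.K7.H56 (VV Unr2)
open Pool.Agent.K7.H56.U
open Pool.Agent.K7.H70.AS
open Pool.Agent.K7.H70.SM
open Pool.Agent.R430
open Pool.Agent.W192.HK
open Pool.Agent.Y696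
open Pool.Agent.TH841.SH.D
open Pool.Agent.TH936.CM H667R3 Pool.Agent.TH936.PU
open Pool.Agent.W189.NF (aV eV redMap Ov card_res finite_res)
open Pool.Agent.Y688 (HL)
open scoped Classical

/-- the local conditions -/
structure G5 (K : Type) [Field K] [NumberField K] : Prop where
  om : ∃ ω : K, ω ^ 2 + ω + 1 = 0
  two : Unr2 K
  ng : NG K

theorem disc_odd_of {K : Type} [Field K] [NumberField K] (hU : Unr2 K) : ¬ (2 : ℤ) ∣ discr K := by
  have := Pool.Agent.R425.not_disc K Nat.prime_two (fun v hv => by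
    have := hU v hv
    exact_mod_cast this)
  exact_mod_cast this

section
variable {K : Type} [Field K] [NumberField K]

/-- **the field with the cube roots of unity** -/
theorem lval_big5 (hGK : G5 K) (ι : Pool.Agent.Y688.RR →+* 𝓞 K) {d : ℕ}
    (hd : Module.finrank ℚ K = 2 * d) {f : ℂ → ℂ} (hf : VV ι (X0 1) f) :
    IsL K (Lam f) ∧ ∀ (Λ : PeriodPair) (ω : ℝ) (Ω : ℂ), IsPeriods Λ ω → Cur Λ Ω →
      ∀ (Γ : Type) [LinearOrderedCommGroupWithZero Γ] (v : Valuation ℂ Γ), v 2 < 1 →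
        v (xv K Λ ω (Lam f)) = v (f 1) * vc v (f 1) / (v Ω ^ d * vc v Ω ^ d) := by
  refine ⟨⟨Lam_mero hf, Lam_an hf, fun s hs => ⟨(LSeries_hasProd' (E0 K)
    (hasse3 (iE ι) (add3_of_ng hGK.ng)) hs).1, (LN_eq3 (iE ι) (add3_of_ng hGK.ng) hs (Lam_prod hf hs)).symm⟩⟩,
    fun Λ ω Ω hΛ hC Γ _ v hv => ?_⟩
  have hL := HL_of_Cur hC
  have h8 : v ((Real.sqrt |((3 : ℤ) : ℝ)| : ℝ) : ℂ) = 1 := v_sqrtD hv (by norm_num)
  have h9 : v ((Real.sqrt |(discr K : ℝ)| : ℝ) : ℂ) = 1 := v_sqrtD hv (disc_odd_of hGK.two)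
  have hr1 : InfinitePlace.nrRealPlaces K = 0 := by
    obtain ⟨ω', hω'⟩ := hGK.om
    exact InfinitePlace.IsPrimitiveRoot.nrRealPlaces_eq_zero_of_two_lt (by norm_num) (prim_three hω')
  have hr2 : InfinitePlace.nrComplexPlaces K = d := by
    have h10 := InfinitePlace.card_add_two_mul_card_eq_rank K
    rw [hr1, hd] at h10
    omega
  unfold xv period
  rw [hr1, hr2, pow_zero, one_mul, area hC.lat, map_div₀, map_mul, map_pow, map_mul, h8, h9,
    one_mul, mul_one, Lam_one, map_mul, map_mul, mul_pow, vc_apply, vc_apply]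

variable {K₀ : Type} [Field K₀] [NumberField K₀] [Algebra K₀ K]

/-- **the field without cube roots of unity** -/
theorem lval_small5 (hGK : G5 K) (ι : Pool.Agent.Y688.RR →+* 𝓞 K) {d : ℕ}
    (hd : Module.finrank ℚ K = 2 * d) {f : ℂ → ℂ} (hf : VV ι (X0 1) f)
    (h2K : Module.finrank K₀ K = 2) (hns : ∀ x : K₀, x ^ 2 ≠ -3) :
    IsL K₀ (fun s => (starRingEnd ℂ) (f ((starRingEnd ℂ) s))) ∧
    ∀ (Λ : PeriodPair) (ω : ℝ) (Ω : ℂ), IsPeriods Λ ω → Cur Λ Ω →
      ∀ (Γ : Type) [LinearOrderedCommGroupWithZero Γ] (v : Valuation ℂ Γ), v 2 < 1 →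
        v (xv K₀ Λ ω (fun s => (starRingEnd ℂ) (f ((starRingEnd ℂ) s)))) =
          vc v (f 1) / vc v Ω ^ d := by
  obtain ⟨τ, Q⟩ := mkQe (K₀ := K₀) h2K (add3_of_ng (ng_small (k := K₀) hGK.ng)) hns (iE ι)
  refine ⟨⟨mero_conj hf.mero, an_conj (by rw [map_one]; exact hf.an), fun s hs => ?_⟩,
    fun Λ ω Ω hΛ hC Γ _ v hv => ?_⟩
  · have k1 := LSeries_hasProd' (E0 K₀) Q.hasse hs
    refine ⟨k1.1, ?_⟩
    have k2 : HasProd (fun v : HeightOneSpectrum (𝓞 K₀) => Pool.Agent.Y696.XX v s) ((E0 K₀).LSeries s) := k1.2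
    have k3 : HasProd (fun v : HeightOneSpectrum (𝓞 K) => yw (iE ι) v s)
        ((starRingEnd ℂ) (f ((starRingEnd ℂ) s))) := by
      have h3 := VV_conj (N := K) (ι := ι) (f := f) (X := X0 1) (X0_ic 1)
        (by rw [X0_conj (N := K) (n := 1)]; exact hf) hs
      refine h3.congr_fun fun v => ?_
      rw [hX1]
      unfold Pool.Agent.Y696.HH yw
      rw [one_mul]
    have k4 := (Equiv.sigmaFiberEquiv (und0 K₀ (K := K))).hasProd_iff.2 k3
    have k5 := k4.sigma (g := fun v => Pool.Agent.Y696.XX v s) fun v => Q.fib v s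
    show (starRingEnd ℂ) (f ((starRingEnd ℂ) s)) = (E0 K₀).LSeries s
    exact (k2.unique k5).symm
  · have k2 : v ((Real.sqrt |((3 : ℤ) : ℝ)| : ℝ) : ℂ) = 1 := v_sqrtD hv (by norm_num)
    have k3 : v ((Real.sqrt |(discr K₀ : ℝ)| : ℝ) : ℂ) = 1 :=
      v_sqrtD hv (fun hd => (disc_odd_of hGK.two) (hd.trans (discr_dvd_discr K₀ K)))
    have k4 : v ((2 * |((starRingEnd ℂ) Λ.ω₁ * Λ.ω₂).im| : ℝ) : ℂ) = v (ω : ℂ) ^ 2 := by
      rw [area hC.lat, map_mul, map_mul, k2, one_mul, v_period hC hΛ.real hv,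
        v_period_conj hC hΛ.real hv]
      exact (pow_two _).symm
    have k5 : InfinitePlace.nrRealPlaces K₀ + 2 * InfinitePlace.nrComplexPlaces K₀ = d := by
      rw [InfinitePlace.card_add_two_mul_card_eq_rank K₀]
      have e2 := Module.finrank_mul_finrank ℚ K₀ K
      rw [h2K, hd] at e2
      omega
    unfold xv period
    simp only [map_one]
    rw [map_div₀, map_mul, map_mul, map_pow, map_pow, k4, k3, mul_one, ← pow_mul,
      ← pow_add, k5, vc_apply, vc_apply, v_period_conj hC hΛ.real hv]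

end

end Pool.Agent.K7.H56.U2
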