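import Pool.Agent.K7.H56.U2.A

/-!
# Comparison of the values at one, with arbitrary ramification above three
-/

set_option autoImplicit false
set_option linter.all false

namespace Pool.Agent.K7.H56.U2

open NumberField IsDedekindDomain WithZero WeierstrassCurve
open Pool.Agent.K7.H56
open Pool.Agent.K7.H56.P
open Pool.Agent.K7.H56.U
open Pool.Agent.K7.H70.AS
open Pool.Agent.K7.H70.SM (NG ng_small)
open Pool.Agent.R430
open Pool.Agent.W192.HK
open Pool.Agent.Y696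
open Pool.Agent.TH936.CM H667R3 Pool.Agent.TH936.PU
open Pool.Agent.Y688 (HL)
open Pool.Agent.K7.H56.M (Rm act_z three_own exists_z up_two up_three unr2_down z_coe)
open scoped Classical

section
variable {K : Type} [Field K] [NumberField K]

theorem rel_big5 (hGK : G5 K) (ι : Pool.Agent.Y688.RR →+* 𝓞 K) {d : ℕ}
    (hd : Module.finrank ℚ K = 2 * d) {f : ℂ → ℂ} (hf : VV ι (X0 1) f) : Rel K f d := by
  obtain ⟨h1, h2⟩ := lval_big5 hGK ι hd hf
  refine ⟨Lam f, h1, fun Λ ω Ω hΛ hC Γ _ v hv => ?_⟩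
  have hL := HL_of_Cur hC
  rw [h2 Λ ω Ω hΛ hC Γ v hv]
  have hA := bound ι hd hGK.two hf hL hv
  have hB := bound ι hd hGK.two hf hL (v := vc v) (vc_two hv)
  have hC0 : v Ω ^ d ≠ 0 := pow_ne_zero _ ((Valuation.ne_zero_iff _).2 hL.ne)
  have hD0 : vc v Ω ^ d ≠ 0 := pow_ne_zero _ ((Valuation.ne_zero_iff _).2 hL.ne)
  have hpos : 0 < v Ω ^ d * vc v Ω ^ d := zero_lt_iff.2 (mul_ne_zero hC0 hD0)
  constructor
  · rw [div_le_one₀ hpos]
    exact mul_le_mul' hA hB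
  · rw [div_eq_one_iff_eq hpos.ne']
    constructor
    · intro h
      have e1 : v (f 1) = v Ω ^ d := by
        by_contra hne
        have hlt := lt_of_le_of_ne hA hne
        have h5 : v (f 1) * vc v (f 1) < v Ω ^ d * vc v Ω ^ d :=
          lt_of_le_of_lt (mul_le_mul' le_rfl hB) (mul_lt_mul_of_pos_right hlt (zero_lt_iff.2 hD0))
        rw [h] at h5
        exact lt_irrefl _ h5
      refine ⟨e1, ?_⟩
      rw [e1] at h
      exact mul_left_cancel₀ hC0 h
    · rintro ⟨e1, e2⟩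
      rw [e1, e2]

variable {K₀ : Type} [Field K₀] [NumberField K₀] [Algebra K₀ K]

theorem rel_small5 (hGK : G5 K) (ι : Pool.Agent.Y688.RR →+* 𝓞 K) {d : ℕ}
    (hd : Module.finrank ℚ K = 2 * d) {f : ℂ → ℂ} (hf : VV ι (X0 1) f)
    (h2K : Module.finrank K₀ K = 2) (hns : ∀ x : K₀, x ^ 2 ≠ -3) : Rel K₀ f d := by
  obtain ⟨h1, h2⟩ := lval_small5 hGK ι hd hf h2K hns
  refine ⟨_, h1, fun Λ ω Ω hΛ hC Γ _ v hv => ?_⟩
  have hL := HL_of_Cur hC
  rw [h2 Λ ω Ω hΛ hC Γ v hv]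
  have hB := bound ι hd hGK.two hf hL (v := vc v) (vc_two hv)
  have hD0 : vc v Ω ^ d ≠ 0 := pow_ne_zero _ ((Valuation.ne_zero_iff _).2 hL.ne)
  have hreal : (starRingEnd ℂ) (f 1) = f 1 := by
    have h3 := h1.real
    simp only [map_one] at h3
    rw [Complex.conj_conj] at h3
    exact h3.symm
  have e1 : vc v (f 1) = v (f 1) := by rw [vc_apply, hreal]
  have e2 : vc v Ω = v Ω := by
    rw [vc_apply, v_period_conj hC hΛ.real hv, v_period hC hΛ.real hv]
  constructor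
  · rw [div_le_one₀ (zero_lt_iff.2 hD0)]
    exact hB
  · rw [div_eq_one_iff_eq hD0, e1, e2]
    exact (and_self_iff).symm

end

section NM
variable {N M : Type} [Field N] [NumberField N] [Field M] [NumberField M] [Algebra N M]

/-- the local conditions go down -/
lemma g5_down (hM : G5 M) {a : N} (ha : a ^ 2 = -3) : G5 N where
  om := om_of ha
  two := unr2_down (K := M) hM.two
  ng := ng_small (K := M) hM.ng

variable [IsGalois N M]

/-- **the comparison over the top field** -/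
theorem cmp_good5 {r : ℕ} (hr : Module.finrank N M = 2 ^ r) {a : M} (ha : a ^ 2 = -3) (hM : G5 M)
    (hG : Gd N M) : ∃ (ι : Pool.Agent.Y688.RR →+* 𝓞 M) (d : ℕ) (f : ℂ → ℂ) (dN : ℕ)
      (fN : ℂ → ℂ), Module.finrank ℚ M = 2 * d ∧ VV ι (X0 1) f ∧ Rel N fN dN ∧
      ∀ (L : PeriodPair) (Ω : ℂ), HL L Ω → ∀ (Γ : Type) [LinearOrderedCommGroupWithZero Γ]
        (v : Valuation ℂ Γ), v 2 < 1 → (v (f 1) = v Ω ^ d ↔ v (fN 1) = v Ω ^ dN) := by
  by_cases hns : ∀ x : N, x ^ 2 ≠ -3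
  · obtain ⟨E, hE, b, hb⟩ := exists_E ha hns
    obtain ⟨ι⟩ := exists_iotaR hb
    obtain ⟨d, hd⟩ := even_deg hb
    have hGE : G5 E := g5_down hM hb
    have hfr : ∃ m, r = m + 1 ∧ Module.finrank E M = 2 ^ m := by
      have h1 := Module.finrank_mul_finrank N E M
      rw [hE, hr] at h1
      cases r with
      | zero =>
        rw [pow_zero] at h1
        omega
      | succ m =>
        refine ⟨m, rfl, ?_⟩
        rw [pow_succ, mul_comm] at h1
        exact Nat.eq_of_mul_eq_mul_right two_pos h1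
    obtain ⟨m, rfl, hm⟩ := hfr
    have hNC : NC N E := nc_of_tower (K := M) hr
    have hGEM : Gd E M := gd_top (F := N) hNC hG
    have hdM : Module.finrank ℚ M = 2 * (d * 2 ^ m) := by
      rw [← Module.finrank_mul_finrank ℚ E M, hd, hm, mul_assoc]
    obtain ⟨fE, -, hfE, -, -⟩ := core_gen2 E ι d hd hGE.two 1 (X0 1) (X0 1) (X0_ih 1) (X0_ih 1)
      odd_one
    obtain ⟨fM, -, hfM, -, -⟩ := core_gen2 M ((algebraMap (𝓞 E) (𝓞 M)).comp ι) _ hdM hM.two 1
      (X0 1) (X0 1) (X0_ih 1) (X0_ih 1) odd_one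
    refine ⟨(algebraMap (𝓞 E) (𝓞 M)).comp ι, d * 2 ^ m, fM, d, fE, hdM, hfM,
      rel_small5 hGE ι hd hfE hE hns, fun L Ω hL Γ _ v hv => ?_⟩
    exact tower_good (F := E) (K := M) ι hm hM.two hGEM hd hfE hL hv m M (AlgHom.id E M) hm fM hfM
  · push Not at hns
    obtain ⟨b, hb⟩ := hns
    obtain ⟨ι⟩ := exists_iotaR hb
    obtain ⟨d, hd⟩ := even_deg hb
    have hGE : G5 N := g5_down hM hb
    have hdM : Module.finrank ℚ M = 2 * (d * 2 ^ r) := by
      rw [← Module.finrank_mul_finrank ℚ N M, hd, hr, mul_assoc]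
    obtain ⟨fE, -, hfE, -, -⟩ := core_gen2 N ι d hd hGE.two 1 (X0 1) (X0 1) (X0_ih 1) (X0_ih 1)
      odd_one
    obtain ⟨fM, -, hfM, -, -⟩ := core_gen2 M ((algebraMap (𝓞 N) (𝓞 M)).comp ι) _ hdM hM.two 1
      (X0 1) (X0 1) (X0_ih 1) (X0_ih 1) odd_one
    refine ⟨(algebraMap (𝓞 N) (𝓞 M)).comp ι, d * 2 ^ r, fM, d, fE, hdM, hfM,
      rel_big5 hGE ι hd hfE, fun L Ω hL Γ _ v hv => ?_⟩
    exact tower_good (F := N) (K := M) ι hr hM.two hG hd hfE hL hv r M (AlgHom.id N M) hr fM hfM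

/-- **a bad prime** -/
theorem cmp_bad5 {r : ℕ} (hr : Module.finrank N M = 2 ^ r) {a : M} (ha : a ^ 2 = -3) (hM : G5 M)
    {v₀ : HeightOneSpectrum (𝓞 N)} {w : HeightOneSpectrum (𝓞 M)}
    (hlo : w.asIdeal.LiesOver v₀.asIdeal) (h3 : (3 : 𝓞 N) ∉ v₀.asIdeal) {x : 𝓞 N}
    (hx : x ^ 3 - 2 ∈ v₀.asIdeal) (hram : v₀.asIdeal.ramificationIdx' w.asIdeal ≠ 1) :
    ∃ (ι : Pool.Agent.Y688.RR →+* 𝓞 M) (d : ℕ) (f : ℂ → ℂ),
      Module.finrank ℚ M = 2 * d ∧ VV ι (X0 1) f ∧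
      ∀ (L : PeriodPair) (Ω : ℂ), HL L Ω → ∀ (Γ : Type) [LinearOrderedCommGroupWithZero Γ]
        (v : Valuation ℂ Γ), v 2 < 1 → v (f 1) < v Ω ^ d := by
  by_cases hns : ∀ x : N, x ^ 2 ≠ -3
  · obtain ⟨E, hE, b, hb⟩ := exists_E ha hns
    obtain ⟨ι⟩ := exists_iotaR hb
    obtain ⟨d, hd⟩ := even_deg hb
    obtain ⟨z, hz⟩ := exists_z hb
    have hGE : G5 E := g5_down hM hb
    have hfr : ∃ m, r = m + 1 ∧ Module.finrank E M = 2 ^ m := by
      have h1 := Module.finrank_mul_finrank N E M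
      rw [hE, hr] at h1
      cases r with
      | zero =>
        rw [pow_zero] at h1
        omega
      | succ m =>
        refine ⟨m, rfl, ?_⟩
        rw [pow_succ, mul_comm] at h1
        exact Nat.eq_of_mul_eq_mul_right two_pos h1
    obtain ⟨m, rfl, hm⟩ := hfr
    have hdM : Module.finrank ℚ M = 2 * (d * 2 ^ m) := by
      rw [← Module.finrank_mul_finrank ℚ E M, hd, hm, mul_assoc]
    obtain ⟨fM, -, hfM, -, -⟩ := core_gen2 M ((algebraMap (𝓞 E) (𝓞 M)).comp ι) _ hdM hM.two 1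
      (X0 1) (X0 1) (X0_ih 1) (X0_ih 1) odd_one
    -- the prime of `E`
    set P : HeightOneSpectrum (𝓞 E) := Pool.Agent.K7.H56.U.lo E w with hP
    have hPw : w.asIdeal.LiesOver P.asIdeal := Pool.Agent.K7.H56.U.lo_lies w
    have hPv : P.asIdeal.LiesOver v₀.asIdeal := by
      refine ⟨?_⟩
      rw [hlo.over, hPw.over, Ideal.under_under]
    have hmem : ∀ y : 𝓞 N, y ∈ v₀.asIdeal ↔ algebraMap (𝓞 N) (𝓞 E) y ∈ P.asIdeal := by
      intro y
      rw [hPv.over]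
      rfl
    have h3P : (3 : 𝓞 E) ∉ P.asIdeal := by
      intro h
      apply h3
      rw [hmem, map_ofNat]
      exact h
    have hgal : IsGalois N E := gal2' hE
    have hePv : v₀.asIdeal.ramificationIdx' P.asIdeal = 1 := by
      refine ram_one hPv fun σ hσ => ?_
      by_contra hne
      have h4 := hσ z
      rw [act_z hE hns hz hne] at h4
      apply h3P
      have : (3 : 𝓞 E) = (-1 - z - z) * (1 + 2 * z) := by linear_combination 4 * hz
      rw [this]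
      exact Ideal.mul_mem_right _ _ h4
    have heP : P.asIdeal.ramificationIdx' w.asIdeal ≠ 1 := by
      intro h
      apply hram
      rw [ram_mul hPv hPw, hePv, h]
    have hR : Rm E w := by
      by_contra hcon
      exact heP (ram_one hPw fun σ hσ => Pool.Agent.K7.H56.M.not_rm hcon σ hσ)
    refine ⟨(algebraMap (𝓞 E) (𝓞 M)).comp ι, d * 2 ^ m, fM, hdM, hfM,
      fun L Ω hL Γ _ v hv => ?_⟩
    refine tower_bad (F := E) (K := M) ι hm hM.two hd hR h3P
      (x := algebraMap (𝓞 N) (𝓞 E) x) ?_ hfM hL hv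
    rw [← map_pow, ← map_ofNat (algebraMap (𝓞 N) (𝓞 E)) 2, ← map_sub]
    exact (hmem _).1 hx
  · push Not at hns
    obtain ⟨b, hb⟩ := hns
    obtain ⟨ι⟩ := exists_iotaR hb
    obtain ⟨d, hd⟩ := even_deg hb
    have hdM : Module.finrank ℚ M = 2 * (d * 2 ^ r) := by
      rw [← Module.finrank_mul_finrank ℚ N M, hd, hr, mul_assoc]
    obtain ⟨fM, -, hfM, -, -⟩ := core_gen2 M ((algebraMap (𝓞 N) (𝓞 M)).comp ι) _ hdM hM.two 1
      (X0 1) (X0 1) (X0_ih 1) (X0_ih 1) odd_one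
    have hR : Rm N w := by
      by_contra hcon
      exact hram (ram_one hlo fun σ hσ => Pool.Agent.K7.H56.M.not_rm hcon σ hσ)
    have hdn : Pool.Agent.Y688.dn N w = v₀ := by
      apply HeightOneSpectrum.ext
      rw [hlo.over]
      rfl
    refine ⟨(algebraMap (𝓞 N) (𝓞 M)).comp ι, d * 2 ^ r, fM, hdM, hfM,
      fun L Ω hL Γ _ v hv => ?_⟩
    exact tower_bad (F := N) (K := M) ι hr hM.two hd hR (by rw [hdn]; exact h3)
      (x := x) (by rw [hdn]; exact hx) hfM hL hv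

end NM

end Pool.Agent.K7.H56.U2
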