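import Pool.Agent.K7.H56.U2.B

/-!
# The top field, with arbitrary ramification above three
-/

set_option autoImplicit false
set_option linter.all false

namespace Pool.Agent.K7.H56.U2

open NumberField IsDedekindDomain WithZero WeierstrassCurve
open Pool.Agent.K7.H56
open Pool.Agent.K7.H56.P
open Pool.Agent.K7.H56.U
open Pool.Agent.K7.H70.AS
open Pool.Agent.K7.H70.SM (NG ng_small)
open Pool.Agent.R430
open Pool.Agent.W192.HK
open Pool.Agent.Y696
open Pool.Agent.TH936.CM H667R3 Pool.Agent.TH936.PU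
open Pool.Agent.Y688 (HL)
open Pool.Agent.K7.H56.M (Rm act_z exists_z up_two up_three unr2_down z_coe)
open scoped Classical

/-- the condition above three goes up -/
def NgUp : Prop := ∀ (K M : Type) [Field K] [NumberField K] [Field M] [NumberField M] [Algebra K M],
  Module.finrank K M = 2 → NG K → NG M

/-- the properties of the top field -/
structure Top5 (N K M : Type) [Field N] [NumberField N] [Field K] [NumberField K] [Field M]
    [NumberField M] [Algebra N K] [Algebra K M] [Algebra N M] [IsScalarTower N K M] : Prop where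
  galN : IsGalois N M
  galK : IsGalois K M
  degK : ∃ n, Module.finrank K M = 2 ^ n
  degN : ∃ n, Module.finrank N M = 2 ^ n
  sq : ∃ a : M, a ^ 2 = -3
  g5 : G5 M
  rel : ∀ (ι : Pool.Agent.Y688.RR →+* 𝓞 M) (d : ℕ) (f : ℂ → ℂ), Module.finrank ℚ M = 2 * d →
    VV ι (X0 1) f → Rel K f d
  unr : ∀ (v : HeightOneSpectrum (𝓞 K)) (w : HeightOneSpectrum (𝓞 M)),
    w.asIdeal.LiesOver v.asIdeal → (3 : 𝓞 K) ∉ v.asIdeal →
    v.asIdeal.ramificationIdx' w.asIdeal = 1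

section
variable {N K : Type} [Field N] [NumberField N] [Field K] [NumberField K] [Algebra N K]
  [IsGalois N K]

theorem exists_top5 (hNU : NgUp) {r : ℕ} (hr : Module.finrank N K = 2 ^ r) (hU : Unr2 K) (h3 : NG K) :
    ∃ (M : Type) (_ : Field M) (_ : NumberField M) (_ : Algebra K M) (_ : Algebra N M)
      (_ : IsScalarTower N K M), Top5 N K M := by
  by_cases hns : ∀ x : K, x ^ 2 ≠ -3
  · obtain ⟨M, i1, i2, i3, i4, i5, hgal, hfr, a, ha⟩ := exists_M' (F := N) hns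
    have hgal2 : IsGalois K M := gal2' hfr
    obtain ⟨z, hz⟩ := exists_z ha
    have hG : G5 M := ⟨om_of ha, up_two hfr hns hz hU, hNU K M hfr h3⟩
    refine ⟨M, i1, i2, i3, i4, i5, hgal, hgal2, ⟨1, by rw [hfr, pow_one]⟩, ⟨r + 1, ?_⟩, ⟨a, ha⟩,
      hG, fun ι d f hd hf => rel_small5 hG ι hd hf hfr hns, fun v w hlo hv => ?_⟩
    · rw [← Module.finrank_mul_finrank N K M, hr, hfr, pow_succ]
    · refine ram_one hlo fun σ hσ => ?_
      by_contra hne
      have h4 := hσ z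
      rw [act_z hfr hns hz hne] at h4
      apply hv
      have e : (3 : 𝓞 M) = (-1 - z - z) * (1 + 2 * z) := by linear_combination 4 * hz
      have h5 : (3 : 𝓞 M) ∈ w.asIdeal := by
        rw [e]
        exact Ideal.mul_mem_right _ _ h4
      have := hlo.over
      rw [this]
      change algebraMap (𝓞 K) (𝓞 M) 3 ∈ w.asIdeal
      rw [map_ofNat]
      exact h5
  · push Not at hns
    obtain ⟨a, ha⟩ := hns
    have hG : G5 K := ⟨om_of ha, hU, h3⟩
    refine ⟨K, inferInstance, inferInstance, inferInstance, inferInstance, inferInstance,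
      inferInstance, inferInstance, ⟨0, by rw [Module.finrank_self, pow_zero]⟩, ⟨r, hr⟩, ⟨a, ha⟩,
      hG, fun ι d f hd hf => rel_big5 hG ι hd hf, fun v w hlo hv => ?_⟩
    refine ram_one hlo fun σ hσ => ?_
    exact AlgEquiv.ext fun x => σ.commutes x

variable {M : Type} [Field M] [NumberField M] [Algebra K M] [Algebra N M] [IsScalarTower N K M]

lemma Top5.gd (h : Top5 N K M) (hG : Gd N K) : Gd N M := by
  intro v₀ w hlo h3 hx
  have hlo1 : (Pool.Agent.K7.H56.U.lo K w).asIdeal.LiesOver v₀.asIdeal := by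
    refine ⟨?_⟩
    have hPw := Pool.Agent.K7.H56.U.lo_lies (F := K) w
    rw [hlo.over, hPw.over, Ideal.under_under]
  have h3' : (3 : 𝓞 K) ∉ (Pool.Agent.K7.H56.U.lo K w).asIdeal := by
    intro h
    apply h3
    rw [hlo1.over]
    change algebraMap (𝓞 N) (𝓞 K) 3 ∈ (Pool.Agent.K7.H56.U.lo K w).asIdeal
    rw [map_ofNat]
    exact h
  rw [ram_mul hlo1 (Pool.Agent.K7.H56.U.lo_lies w), hG v₀ _ hlo1 h3 hx, h.unr _ _ (Pool.Agent.K7.H56.U.lo_lies w) h3']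

/-- **the comparison of the values, if the ramification is good** -/
theorem val_good5 (hNU : NgUp) {r : ℕ} (hr : Module.finrank N K = 2 ^ r) (hU : Unr2 K) (h3 : NG K)
    (hG : Gd N K) : ∃ LN LK : ℂ → ℂ, IsL N LN ∧ IsL K LK ∧
      ∀ (Λ : PeriodPair) (ω : ℝ), IsPeriods Λ ω →
      ∀ (Γ : Type) [LinearOrderedCommGroupWithZero Γ] (v : Valuation ℂ Γ), v 2 < 1 →
        v (xv N Λ ω LN) ≤ 1 ∧ v (xv K Λ ω LK) ≤ 1 ∧
        (v (xv K Λ ω LK) = 1 ↔ v (xv N Λ ω LN) = 1) := by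
  obtain ⟨M, _, _, _, _, _, T⟩ := exists_top5 (N := N) hNU hr hU h3
  haveI := T.galN
  obtain ⟨n, hn⟩ := T.degN
  obtain ⟨a, ha⟩ := T.sq
  obtain ⟨ι, d, f, dN, fN, hd, hf, ⟨LN, hLN, hRN⟩, hcmp⟩ := cmp_good5 hn ha T.g5 (T.gd hG)
  obtain ⟨LK, hLK, hRK⟩ := T.rel ι d f hd hf
  refine ⟨LN, LK, hLN, hLK, fun Λ ω hΛ Γ _ v hv => ?_⟩
  obtain ⟨Ω, hC⟩ := cur_of hΛ.g₂ hΛ.g₃
  have hL := HL_of_Cur hC
  obtain ⟨h1, h2⟩ := hRN Λ ω Ω hΛ hC Γ v hv
  obtain ⟨h4, h5⟩ := hRK Λ ω Ω hΛ hC Γ v hv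
  refine ⟨h1, h4, ?_⟩
  rw [h2, h5, hcmp Λ Ω hL Γ v hv, hcmp Λ Ω hL Γ (vc v) (vc_two hv)]

/-- **the value, if the ramification is bad** -/
theorem val_bad5 (hNU : NgUp) {r : ℕ} (hr : Module.finrank N K = 2 ^ r) (hU : Unr2 K) (h3 : NG K)
    (hG : ¬ Gd N K) : ∃ LK : ℂ → ℂ, IsL K LK ∧
      ∀ (Λ : PeriodPair) (ω : ℝ), IsPeriods Λ ω →
      ∀ (Γ : Type) [LinearOrderedCommGroupWithZero Γ] (v : Valuation ℂ Γ), v 2 < 1 →
        v (xv K Λ ω LK) < 1 := by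
  obtain ⟨M, _, _, _, _, _, T⟩ := exists_top5 (N := N) hNU hr hU h3
  haveI := T.galN
  obtain ⟨n, hn⟩ := T.degN
  obtain ⟨a, ha⟩ := T.sq
  unfold Pool.Agent.K7.H56.P.Gd at hG
  push Not at hG
  obtain ⟨v₀, v, hlo, h30, ⟨x, hx⟩, hram⟩ := hG
  obtain ⟨w, hw⟩ := exists_above (K := M) v
  have hlo' : w.asIdeal.LiesOver v₀.asIdeal := Ideal.LiesOver.trans w.asIdeal v.asIdeal v₀.asIdeal
  have hram' : v₀.asIdeal.ramificationIdx' w.asIdeal ≠ 1 := by
    rw [ram_mul hlo hw]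
    intro h
    exact hram (Nat.eq_one_of_mul_eq_one_right h)
  obtain ⟨ι, d, f, hd, hf, hval⟩ := cmp_bad5 hn ha T.g5 hlo' h30 hx hram'
  obtain ⟨LK, hLK, hRK⟩ := T.rel ι d f hd hf
  refine ⟨LK, hLK, fun Λ ω hΛ Γ _ v hv => ?_⟩
  obtain ⟨Ω, hC⟩ := cur_of hΛ.g₂ hΛ.g₃
  have hL := HL_of_Cur hC
  obtain ⟨h4, h5⟩ := hRK Λ ω Ω hΛ hC Γ v hv
  refine lt_of_le_of_ne h4 fun h => ?_
  exact (hval Λ Ω hL Γ v hv).ne (h5.1 h).1

end

section base
variable {K : Type} [Field K] [NumberField K]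

/-- the L-function of a field -/
theorem exL5 (hNU : NgUp) (hU : Unr2 K) (h3 : NG K) : ∃ L : ℂ → ℂ, IsL K L := by
  obtain ⟨L, -, h, -, -⟩ := val_good5 (N := K) (K := K) (r := 0) hNU
    (by rw [Module.finrank_self, pow_zero]) hU h3 gd_self
  exact ⟨L, h⟩

theorem xv_le5 (hNU : NgUp) (hU : Unr2 K) (h3 : NG K) {L : ℂ → ℂ} (hL : IsL K L)
    {Λ : PeriodPair} {ω : ℝ}
    (hΛ : IsPeriods Λ ω) {Γ : Type} [LinearOrderedCommGroupWithZero Γ] {v : Valuation ℂ Γ}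
    (hv : v 2 < 1) : v (xv K Λ ω L) ≤ 1 := by
  obtain ⟨L', L'', h, h', h2⟩ := val_good5 (N := K) (K := K) (r := 0) hNU
    (by rw [Module.finrank_self, pow_zero]) hU h3 gd_self
  rw [xv_congr hL h]
  exact (h2 Λ ω hΛ Γ v hv).1

end base

end Pool.Agent.K7.H56.U2
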