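import Pool.Agent.K7.H56.U2.C

/-!
# The Selmer groups, with arbitrary ramification above three
-/

set_option autoImplicit false
set_option linter.all false

namespace Pool.Agent.K7.H56.U2

open NumberField IsDedekindDomain WithZero WeierstrassCurve
open Pool.Agent.K7.H56
open Pool.Agent.K7.H56.P
open Pool.Agent.K7.H56.U
open Pool.Agent.K7.H70.AS (ram_mul gal2' gal1 exists_mid nc_of_tower NC)
open Pool.Agent.K7.H70.SM (NG ng_small)
open Pool.Agent.R430
open Pool.Agent.Y696 (Cb IV EvV LvV PA nat_mem_iff val_of_unr exists_above E27 IsPeriods period)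
open Pool.Agent.K7.H56.M (Rm act_z exists_z up_two up_three unr2_down z_coe W0 W0_Δ)
open scoped Classical

/-- the local condition above three -/
def Lc3 : Prop := ∀ (K : Type) [Field K] [NumberField K] (x : Cb K) (r : K)
  (v : HeightOneSpectrum (𝓞 K)), x.N = r ^ 2 → x.N ≠ 0 → ((3 : ℕ) : 𝓞 K) ∈ v.asIdeal →
  (∀ y : v.adicCompletion K, y ^ 3 ≠ 2) →
  LC (v.adicCompletion K) (AlgebraicClosure (v.adicCompletion K)) (Y702.G.sh W0)
    (zt x (algebraMap K _))

/-- two is not a cube in the completions above three -/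
theorem no_cube_compl {k : Type} [Field k] [NumberField k] (h : NG k)
    (w : HeightOneSpectrum (𝓞 k)) (h3' : ((3 : ℕ) : 𝓞 k) ∈ w.asIdeal) (y : w.adicCompletion k) :
    y ^ 3 ≠ 2 := by
  intro hy
  have h3 : (3 : 𝓞 k) ∈ w.asIdeal := by exact_mod_cast h3'
  have hv3 : Valued.v (3 : w.adicCompletion k) = w.valuation k 3 := by
    have h1 := Pool.Agent.H723R3.valued_algebraMap w (3 : k)
    rw [map_ofNat] at h1
    exact h1
  have hlt : w.valuation k 3 < 1 := by
    have h1 := (w.valuation_lt_one_iff_mem (K := k) (3 : 𝓞 k)).2 h3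
    have e : algebraMap (𝓞 k) k (3 : 𝓞 k) = 3 := map_ofNat _ 3
    rw [← e]
    exact h1
  have hc0 : w.valuation k 3 ≠ 0 := (Valuation.ne_zero_iff _).2 (by norm_num)
  have h20 : (2 : w.adicCompletion k) ≠ 0 := by
    have h5 := (algebraMap k (w.adicCompletion k)).injective.ne (two_ne_zero (α := k))
    rwa [map_ofNat, map_zero] at h5
  set r : w.adicCompletion k := -(y / 2) with hr
  have hr0 : 1 + 4 * r ^ 3 = 0 := by
    have e1 : 1 + 4 * r ^ 3 = 1 - 4 * (y ^ 3) * (2⁻¹ * 2⁻¹ * 2⁻¹) := by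
      rw [hr, div_eq_mul_inv]
      ring
    have e2 : (2 : w.adicCompletion k) * 2⁻¹ = 1 := mul_inv_cancel₀ h20
    rw [e1, hy]
    linear_combination (-(2 * 2⁻¹ * (2 * 2⁻¹)) - (2 * 2⁻¹) - 1) * e2
  have v2 : Valued.v (2 : w.adicCompletion k) = 1 := by
    have e : (2 : w.adicCompletion k) = 3 - 1 := by norm_num
    rw [e, Valuation.map_sub_swap, Valuation.map_sub_eq_of_lt_left _ (by rw [map_one, hv3]; exact hlt),
      map_one]
  have v4 : Valued.v (4 : w.adicCompletion k) = 1 := by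
    have e : (4 : w.adicCompletion k) = 2 * 2 := by norm_num
    rw [e, map_mul, v2, one_mul]
  have hr1 : Valued.v r ≤ 1 := by
    by_contra hcon
    push Not at hcon
    have h5 : 1 < Valued.v (4 * r ^ 3) := by
      rw [map_mul, map_pow, v4, one_mul]
      exact one_lt_pow₀ hcon (by norm_num)
    have h6 : Valued.v (1 + 4 * r ^ 3) = Valued.v (4 * r ^ 3) :=
      Valuation.map_add_eq_of_lt_right _ (by rw [map_one]; exact h5)
    rw [hr0, map_zero] at h6
    rw [← h6] at h5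
    exact absurd h5 (not_lt.2 zero_le_one)
  obtain ⟨r', hr'⟩ := Pool.Agent.H723R3.exists_approx (K := k) w r (Units.mk0 _ (pow_ne_zero 2 hc0))
  rw [Units.val_mk0] at hr'
  set t : w.adicCompletion k := algebraMap k (w.adicCompletion k) r' with ht
  have hsq : w.valuation k 3 ^ 2 ≤ 1 := pow_le_one' hlt.le 2
  have ht1 : Valued.v t ≤ 1 := by
    have e : t = (t - r) + r := by ring
    rw [e]
    exact Valuation.map_add_le _ (hr'.le.trans hsq) hr1
  have hd : Valued.v (1 + 4 * t ^ 3) ≤ w.valuation k 3 ^ 2 := by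
    have e : 1 + 4 * t ^ 3 = (t - r) * (4 * (t ^ 2 + t * r + r ^ 2)) + (1 + 4 * r ^ 3) := by ring
    rw [e, hr0, add_zero, map_mul]
    have h4 : Valued.v (4 * (t ^ 2 + t * r + r ^ 2)) ≤ 1 := by
      rw [map_mul]
      refine mul_le_one' v4.le (Valuation.map_add_le _ (Valuation.map_add_le _ ?_ ?_) ?_)
      · rw [map_pow]; exact pow_le_one' ht1 2
      · rw [map_mul]; exact mul_le_one' ht1 hr1
      · rw [map_pow]; exact pow_le_one' hr1 2
    calc _ ≤ w.valuation k 3 ^ 2 * 1 := by gcongr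
      _ = _ := mul_one _
  have hfin : Valued.v (1 + 4 * t ^ 3) ^ 2 ≤ w.valuation k 3 ^ 3 := by
    calc _ ≤ (w.valuation k 3 ^ 2) ^ 2 := by gcongr
      _ = w.valuation k 3 ^ 3 * w.valuation k 3 := by rw [← pow_mul, ← pow_succ]
      _ ≤ w.valuation k 3 ^ 3 * 1 := by gcongr
      _ = _ := mul_one _
  have e3 : 1 + 4 * t ^ 3 = algebraMap k (w.adicCompletion k) (1 + 4 * r' ^ 3) := by
    rw [ht, map_add, map_one, map_mul, map_ofNat, map_pow]
  rw [e3, Pool.Agent.H723R3.valued_algebraMap] at hfin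
  exact absurd hfin (not_le.2 (h w h3 r'))

section pair

variable {K K' : Type} [Field K] [NumberField K] [Field K'] [NumberField K'] [Algebra K K']
  [IsGalois K K']

/-- **an element which satisfies the conditions and is not a square gives a nontrivial class** -/
theorem not_selT_pair5 (hLc : Lc3) {n : ℕ} (hn : Module.finrank K K' = 2 ^ n) {ω : K'}
    (hω : ω ^ 2 + ω + 1 = 0) (h3 : ∀ x : K', x ^ 3 ≠ 2)
    (hun : ∀ (v : HeightOneSpectrum (𝓞 K)) (v' : HeightOneSpectrum (𝓞 K')),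
      v'.asIdeal.LiesOver v.asIdeal → ((3 : ℕ) : 𝓞 K) ∉ v.asIdeal →
      v.asIdeal.ramificationIdx' v'.asIdeal = 1)
    (hK2 : ∀ v : HeightOneSpectrum (𝓞 K), ((2 : ℕ) : 𝓞 K) ∈ v.asIdeal →
      v.valuation K 2 = exp (-1 : ℤ))
    (hK3 : NG K)
    (hta : TwoC K) {δ' : Cb K'} (hP : PA δ') (hsq : ¬ IsSquare δ') :
    ¬ S2 K := by
  have h3K : ∀ x : K, x ^ 3 ≠ 2 := by
    intro x hx
    apply h3 (algebraMap K K' x)
    rw [← map_pow, hx, map_ofNat]
  obtain ⟨δ, D, t, hD, hD0, ht0, hmap, hns, r, hr⟩ := Pool.Agent.Y696.step (L := K) (M := K') hn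
    two_ne_zero h3 PA PA.one (fun x y hx hy => hx.mul hy)
    (fun g x hx => hx.aut (g : K' ≃+* K')) (fun x hx => hx.2.1) (Cb.ne_of_N hP.1) hsq hP
  have htN : t.N ≠ 0 := Cb.N_ne h3 ht0
  have hm : PA (Cb.map (algebraMap K K') δ) := by
    rw [hmap]
    exact hD.mul (PA.sq htN)
  have hδN : δ.N ≠ 0 := by
    intro h
    apply hm.1
    rw [Cb.N_map, h, map_zero]
  have hδsq : ¬ IsSquare δ := by
    rintro ⟨s, hs⟩
    exact hns ⟨Cb.map (algebraMap K K') s, by rw [hs, map_mul]⟩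
  refine not_selT h3K hr hδN hδsq (fun v => ?_) (fun v => lc_inf hr hδN v)
  by_cases hv2 : ((2 : ℕ) : 𝓞 K) ∈ v.asIdeal
  · have hv3 : ((3 : ℕ) : 𝓞 K) ∉ v.asIdeal := by
      intro h
      have h7 := Ideal.sub_mem _ h hv2
      have h8 : ((3 : ℕ) : 𝓞 K) - ((2 : ℕ) : 𝓞 K) = 1 := by push_cast; ring
      rw [h8] at h7
      exact v.isPrime.ne_top ((Ideal.eq_top_iff_one _).2 h7)
    obtain ⟨v', hlo⟩ := exists_above (K := K') v
    have he := hun v v' hlo hv3
    have hv2' : ((2 : ℕ) : 𝓞 K') ∈ v'.asIdeal := by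
      rw [nat_mem_iff, ← map_natCast (algebraMap K K'), val_of_unr hlo he, ← nat_mem_iff]
      exact hv2
    have hvv : v'.valuation K' 2 = exp (-1 : ℤ) := by
      have := val_of_unr hlo he (2 : K)
      rw [map_ofNat] at this
      rw [this]
      exact hK2 v hv2
    have hL : LvV (v.valuation K) δ := LvV.desc hvv (algebraMap K K') (val_of_unr hlo he)
      (Cb.ne_of_N hδN) (hm.2.2.2 v' hv2')
    obtain ⟨S, η, τ, hS, hτ0, hτ, ha, hb, hc, hx⟩ := hta v hv2 δ hδN ⟨r, hr⟩ hL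
    exact lc_two v hv2 hS hτ0 hτ ha hb hc hx
  · by_cases hv3 : ((3 : ℕ) : 𝓞 K) ∈ v.asIdeal
    · exact hLc K δ r v hr hδN hv3 (no_cube_compl hK3 v hv3)
    · refine lc_good hr v hv2 hv3 fun w hw ρ hρ => ?_
      refine hev_of hω hv2 hv3 (fun v' hlo => hun v v' hlo hv3) hD.1 hD.2.1 htN
        (fun v' hlo => hD.2.2.1 v' ?_) hmap w hw hρ
      intro h6
      have he := hun v v' hlo hv3
      rw [nat_mem_iff, ← map_natCast (algebraMap K K'), val_of_unr hlo he, ← nat_mem_iff] at h6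
      have h7 : ((6 : ℕ) : 𝓞 K) = ((2 : ℕ) : 𝓞 K) * ((3 : ℕ) : 𝓞 K) := by push_cast; norm_num
      rw [h7] at h6
      rcases v.isPrime.mem_or_mem h6 with h | h
      · exact hv2 h
      · exact hv3 h

end pair

section
variable {N K : Type} [Field N] [NumberField N] [Field K] [NumberField K] [Algebra N K]
  [IsGalois N K]

/-- **the Selmer groups in the good case** -/
theorem s2_good5 (hNU : NgUp) (hLc : Lc3) {r : ℕ} (hr : Module.finrank N K = 2 ^ r) (hU : Unr2 K) (h3 : NG K)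
    (hG : Gd N K) : S2 K ↔ S2 N := by
  refine ⟨fun hS => s2_down (no_cube hU) hS, fun hS => ?_⟩
  by_contra hnS
  obtain ⟨M, _, _, _, _, _, T⟩ := exists_top5 (N := N) hNU hr hU h3
  haveI := T.galN
  haveI := T.galK
  obtain ⟨n, hn⟩ := T.degN
  obtain ⟨a, ha⟩ := T.sq
  have hM := T.g5
  have hcM := no_cube hM.two
  have hsq : ∃ δ : Cb M, PA δ ∧ ¬ IsSquare δ := by
    by_contra hcon
    push Not at hcon
    exact hnS (s2_down hcM (Gc.s2 ⟨hM.om, hcM, hM.two, hcon⟩))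
  obtain ⟨δ, hP, hsq⟩ := hsq
  obtain ⟨E, _, _, _, _, _, g1, g2, ⟨i, hi⟩, ⟨m, hm⟩, ⟨b, hb⟩, hur⟩ := exists_E2 hn ha
  have hNC : NC N E := nc_of_tower (K := M) hn
  have hGE : Gd E M := gd_top (F := N) hNC (T.gd hG)
  obtain ⟨δ₀, hs0, hP0⟩ := desc_gd hm hGE hcM hM.two hsq hP
  obtain ⟨ω, hω⟩ := om_of hb
  have hE := g5_down hM hb
  have hU2N : Unr2 N := unr2_down (K := M) hM.two
  refine not_selT_pair5 (K := N) (K' := E) hLc hi hω (no_cube hE.two) (fun v v' hlo h3 => ?_)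
    hU2N (ng_small (K := M) hM.ng) (ht_true N hU2N) hP0 hs0 hS
  refine hur v v' hlo ?_
  intro h
  exact h3 (by push_cast; exact h)

/-- **the Selmer group in the bad case** -/
theorem s2_bad5 (hNU : NgUp) (hLc : Lc3) {r : ℕ} (hr : Module.finrank N K = 2 ^ r) (hU : Unr2 K) (h3 : NG K)
    (hG : ¬ Gd N K) : ¬ S2 K := by
  obtain ⟨M, _, _, _, _, _, T⟩ := exists_top5 (N := N) hNU hr hU h3
  haveI := T.galN
  haveI := T.galK
  obtain ⟨n, hn⟩ := T.degN
  obtain ⟨a, ha⟩ := T.sq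
  have hM := T.g5
  have hcM := no_cube hM.two
  obtain ⟨E, _, _, _, _, _, g1, g2, ⟨i, hi⟩, ⟨m, hm⟩, ⟨b, hb⟩, hur⟩ := exists_E2 hn ha
  have hE := g5_down hM hb
  obtain ⟨ω, hω⟩ := om_of hb
  unfold Pool.Agent.K7.H56.P.Gd at hG
  push Not at hG
  obtain ⟨v₀, v, hlo, h30, ⟨x, hx⟩, hram⟩ := hG
  obtain ⟨w, hw⟩ := exists_above (K := M) v
  have hlo' : w.asIdeal.LiesOver v₀.asIdeal := Ideal.LiesOver.trans w.asIdeal v.asIdeal v₀.asIdeal
  have hram' : v₀.asIdeal.ramificationIdx' w.asIdeal ≠ 1 := by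
    rw [ram_mul hlo hw]
    intro h
    exact hram (Nat.eq_one_of_mul_eq_one_right h)
  -- the prime of `E`
  set P : HeightOneSpectrum (𝓞 E) := Pool.Agent.K7.H56.U.lo E w with hP
  have hPw : w.asIdeal.LiesOver P.asIdeal := Pool.Agent.K7.H56.U.lo_lies w
  have hPv : P.asIdeal.LiesOver v₀.asIdeal := by
    refine ⟨?_⟩
    rw [hlo'.over, hPw.over, Ideal.under_under]
  have hmem : ∀ y : 𝓞 N, y ∈ v₀.asIdeal ↔ algebraMap (𝓞 N) (𝓞 E) y ∈ P.asIdeal := by
    intro y
    rw [hPv.over]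
    rfl
  have h3P : (3 : 𝓞 E) ∉ P.asIdeal := by
    intro h
    apply h30
    rw [hmem, map_ofNat]
    exact h
  have hePv : v₀.asIdeal.ramificationIdx' P.asIdeal = 1 := hur v₀ P hPv h30
  have heP : P.asIdeal.ramificationIdx' w.asIdeal ≠ 1 := by
    intro h
    apply hram'
    rw [ram_mul hPv hPw, hePv, h]
  have h2P : ((2 : ℕ) : 𝓞 E) ∉ P.asIdeal := by
    intro h
    have h2w : ((2 : ℕ) : 𝓞 M) ∈ w.asIdeal := (nat_lo w 2).1 h
    have e1 := hM.two w h2w
    have e2 := hE.two P h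
    have e3 := HeightOneSpectrum.valuation_liesOver M P w (2 : E)
    rw [map_ofNat (algebraMap E M), e1, e2, ← exp_nsmul] at e3
    have e4 := exp_injective e3
    rw [nsmul_eq_mul] at e4
    apply heP
    have : ((P.asIdeal.ramificationIdx' w.asIdeal : ℕ) : ℤ) = 1 := by linarith
    exact_mod_cast this
  have h6P : ((6 : ℕ) : 𝓞 E) ∉ P.asIdeal := by
    intro h
    have e6 : ((6 : ℕ) : 𝓞 E) = ((2 : ℕ) : 𝓞 E) * 3 := by push_cast; norm_num
    rw [e6] at h
    rcases P.isPrime.mem_or_mem h with h | h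
    · exact h2P h
    · exact h3P h
  have hxP : algebraMap (𝓞 N) (𝓞 E) x ^ 3 - 2 ∈ P.asIdeal := by
    rw [← map_pow, ← map_ofNat (algebraMap (𝓞 N) (𝓞 E)) 2, ← map_sub]
    exact (hmem _).1 hx
  obtain ⟨δ, hδ, hδr, hδs, hδe, hδl⟩ := Pool.Agent.K7.H89.U.exists_q8 E hω hE.two
    (no_cube hE.two) P h6P _ hxP
  have hPA : PA (Cb.map (algebraMap E M) δ) := by
    refine PA_up hω hδ hδr (fun u hu => ?_) hδl
    by_cases hc : Pool.Agent.K7.H56.U.lo E u = P
    · right
      have hu' : u.asIdeal.LiesOver P.asIdeal := by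
        rw [← hc]
        exact Pool.Agent.K7.H56.U.lo_lies u
      rw [hc]
      exact even_ram hm hPw hu' heP
    · left
      exact hδe _ (fun h => hu ((nat_lo u 6).1 h)) hc
  have hns := nonsq_up (K := M) hcM hδ hδr hδs
  obtain ⟨k, hk⟩ := T.degK
  refine not_selT_pair5 (K := K) (K' := M) hLc hk (ω := algebraMap E M ω) (by
      rw [← map_pow, ← map_add, ← map_one (algebraMap E M), ← map_add, hω, map_zero]) hcM
    (fun v v' hlo h3 => ?_) hU h3 (ht_true K hU) hPA hns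
  refine T.unr v v' hlo ?_
  intro h
  exact h3 (by push_cast; exact h)

end

end Pool.Agent.K7.H56.U2
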