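import Pool.Agent.K7.H56.U2.D

/-!
# Towers of quadratic extensions, with arbitrary ramification above three
-/

set_option autoImplicit false
set_option linter.all false

namespace Pool.Agent.K7.H56.U2

open NumberField IsDedekindDomain WithZero WeierstrassCurve
open Pool.Agent.K7.H56
open Pool.Agent.K7.H56.P
open Pool.Agent.K7.H56.U
open Pool.Agent.K7.H70.AS (ram_mul gal2' gal1 exists_mid nc_of_tower NC)
open Pool.Agent.K7.H70.SM (NG ng_small)
open Pool.Agent.R430
open Pool.Agent.Y696 (Cb IV EvV LvV PA nat_mem_iff val_of_unr exists_above E27 IsPeriods period)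
open Pool.Agent.K7.H56.M (Rm act_z exists_z up_two up_three unr2_down z_coe W0 W0_Δ)
open scoped Classical

section ng

/-- the condition above three, if the ramification index is not divisible by three -/
theorem ng_val {K : Type} [Field K] (V : Valuation K ℤᵐ⁰) {e : ℕ} (he : V 3 = exp (-(e : ℤ)))
    (h3e : ¬ 3 ∣ e) (r : K) : V 3 ^ 3 < V (1 + 4 * r ^ 3) ^ 2 := by
  have he0 : 0 < e := Nat.pos_of_ne_zero fun h => h3e (by rw [h]; exact dvd_zero 3)
  have hlt : V 3 < 1 := by
    rw [he, ← exp_zero, exp_lt_exp]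
    omega
  have v4 : V 4 = 1 := by
    have e1 : (4 : K) = 1 + 3 := by norm_num
    rw [e1, Valuation.map_add_eq_of_lt_left _ (by rw [map_one]; exact hlt), map_one]
  set b : K := r + 1 with hb
  have e1 : 1 + 4 * r ^ 3 = 3 * (-1 + 4 * b * (1 - b)) + 4 * b ^ 3 := by
    rw [hb]
    ring
  have h33 : V 3 ^ 3 < 1 := pow_lt_one₀ zero_le hlt (by norm_num)
  have key : exp (-(e : ℤ)) ≤ V (1 + 4 * r ^ 3) → V 3 ^ 3 < V (1 + 4 * r ^ 3) ^ 2 := by
    intro h
    calc V 3 ^ 3 < V 3 ^ 2 := by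
          rw [he, ← exp_nsmul, ← exp_nsmul, exp_lt_exp]
          simp only [nsmul_eq_mul]
          push_cast
          omega
      _ ≤ _ := by
          rw [he]
          exact pow_le_pow_left₀ zero_le h 2
  apply key
  by_cases hb1 : V b < 1
  · have hA : V (3 * (-1 + 4 * b * (1 - b))) = exp (-(e : ℤ)) := by
      rw [map_mul, he]
      have : V (-1 + 4 * b * (1 - b)) = 1 := by
        rw [Valuation.map_add_eq_of_lt_left, Valuation.map_neg, map_one]
        rw [Valuation.map_neg, map_one, map_mul, map_mul, v4, one_mul]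
        refine mul_lt_one_of_nonneg_of_lt_one_left zero_le hb1 ?_
        exact (Valuation.map_sub _ _ _).trans (max_le (by rw [map_one]) hb1.le)
      rw [this, mul_one]
    rw [e1]
    by_cases hb0 : b = 0
    · rw [hb0] at hA ⊢
      have : (4 : K) * 0 ^ 3 = 0 := by ring
      rw [this, add_zero, hA]
    · obtain ⟨n, hn⟩ : ∃ n : ℤ, V b = exp n := ⟨log _, (exp_log ((Valuation.ne_zero_iff _).2 hb0)).symm⟩
      have hB : V (4 * b ^ 3) = exp (3 * n) := by
        rw [map_mul, map_pow, v4, one_mul, hn, ← exp_nsmul]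
        rfl
      rcases lt_trichotomy (3 * n) (-(e : ℤ)) with h | h | h
      · rw [Valuation.map_add_eq_of_lt_left _ (by rw [hA, hB, exp_lt_exp]; exact h), hA]
      · exfalso
        apply h3e
        have : (3 : ℤ) ∣ (e : ℤ) := ⟨-n, by linarith⟩
        exact_mod_cast this
      · rw [Valuation.map_add_eq_of_lt_right _ (by rw [hA, hB, exp_lt_exp]; exact h), hB, exp_le_exp]
        exact h.le
  · rw [not_lt] at hb1
    have hle1 : exp (-(e : ℤ)) ≤ (1 : ℤᵐ⁰) := by
      rw [← exp_zero, exp_le_exp]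
      omega
    refine hle1.trans ?_
    have hb3 : 1 ≤ V (4 * b ^ 3) := by
      rw [map_mul, map_pow, v4, one_mul]
      exact one_le_pow₀ hb1
    have hlt' : V (3 * (-1 + 4 * b * (1 - b))) < V (4 * b ^ 3) := by
      have h5 : V (-1 + 4 * b * (1 - b)) ≤ V b ^ 2 := by
        refine Valuation.map_add_le _ ?_ ?_
        · rw [Valuation.map_neg, map_one]
          exact one_le_pow₀ hb1
        · rw [map_mul, map_mul, v4, one_mul, pow_two]
          refine mul_le_mul' le_rfl ?_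
          exact (Valuation.map_sub _ _ _).trans (max_le (by rw [map_one]; exact hb1) le_rfl)
      rw [map_mul, map_mul, map_pow, v4, one_mul]
      calc V 3 * V (-1 + 4 * b * (1 - b)) ≤ V 3 * V b ^ 2 := by gcongr
        _ < 1 * V b ^ 2 := by
          refine mul_lt_mul_of_pos_right hlt ?_
          exact lt_of_lt_of_le zero_lt_one (one_le_pow₀ hb1)
        _ = V b ^ 2 := one_mul _
        _ ≤ V b ^ 3 := pow_le_pow_right₀ hb1 (by norm_num)
    rw [e1, Valuation.map_add_eq_of_lt_right _ hlt']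
    exact hb3

theorem ng_Q : NG ℚ := by
  intro w hw r
  rcases e3_Q w hw with h | h
  · exact ng_val (w.valuation ℚ) (e := 1) (by rw [h]; rfl) (by norm_num) r
  · exact ng_val (w.valuation ℚ) (e := 2) (by rw [h]; rfl) (by norm_num) r

end ng

section tower

theorem rel_quad5 (hNU : NgUp) (hLc : Lc3) {N K : Type} [Field N] [NumberField N] [Field K]
    [NumberField K] [Algebra N K] [IsGalois N K] {r : ℕ} (hr : Module.finrank N K = 2 ^ r)
    (hU : Unr2 K) (h3 : NG K) : Rel2 N K where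
  gs hG := s2_good5 hNU hLc hr hU h3 hG
  gv hG LN LK hLN hLK Λ ω hΛ Γ _ v hv := by
    obtain ⟨L1, L2, h1, h2, h⟩ := val_good5 hNU hr hU h3 hG
    rw [xv_congr hLK h2, xv_congr hLN h1]
    exact (h Λ ω hΛ Γ v hv).2.2
  bs hG := s2_bad5 hNU hLc hr hU h3 hG
  bv hG LK hLK Λ ω hΛ Γ _ v hv := by
    obtain ⟨L2, h2, h⟩ := val_bad5 hNU hr hU h3 hG
    rw [xv_congr hLK h2]
    exact h Λ ω hΛ Γ v hv

variable {F N K : Type} [Field F] [NumberField F] [Field N] [NumberField N] [Field K] [NumberField K]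
  [Algebra F N] [Algebra N K] [Algebra F K] [IsScalarTower F N K]

/-- the relation is transitive -/
theorem rel_trans5 (hNU : NgUp) (hNC : NC F N) (hU : Unr2 K) (h3 : NG K) (h1 : Rel2 F N)
    (h2 : Rel2 N K) : Rel2 F K := by
  have hUN : Unr2 N := unr2_down (K := K) hU
  have h3N : NG N := ng_small (K := K) h3
  have hiff : Gd F K ↔ Gd F N ∧ Gd N K :=
    ⟨fun h => ⟨gd_bot h, gd_top hNC h⟩, fun h => gd_mul h.1 h.2⟩
  obtain ⟨LN, hLN⟩ := exL5 (K := N) hNU hUN h3N
  refine ⟨fun h => ?_, fun h LF LK hLF hLK Λ ω hΛ Γ _ v hv => ?_, fun h => ?_,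
    fun h LK hLK Λ ω hΛ Γ _ v hv => ?_⟩
  · rw [hiff] at h
    rw [h2.gs h.2, h1.gs h.1]
  · rw [hiff] at h
    rw [h2.gv h.2 LN LK hLN hLK Λ ω hΛ Γ v hv, h1.gv h.1 LF LN hLF hLN Λ ω hΛ Γ v hv]
  · by_cases hg : Gd N K
    · rw [h2.gs hg]
      exact h1.bs fun h' => h (hiff.2 ⟨h', hg⟩)
    · exact h2.bs hg
  · by_cases hg : Gd N K
    · have h4 := h1.bv (fun h' => h (hiff.2 ⟨h', hg⟩)) LN hLN Λ ω hΛ Γ v hv
      refine lt_of_le_of_ne (xv_le5 hNU hU h3 hLK hΛ hv) fun h5 => ?_
      exact h4.ne ((h2.gv hg LN LK hLN hLK Λ ω hΛ Γ v hv).1 h5)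
    · exact h2.bv hg LK hLK Λ ω hΛ Γ v hv

end tower

/-- extensions of degree one -/
theorem ng_deg1 {N K : Type} [Field N] [NumberField N] [Field K] [NumberField K] [Algebra N K]
    (h1 : Module.finrank N K = 1) (h : NG N) : NG K := by
  intro w hw r
  have h2 := Subalgebra.bot_eq_top_of_finrank_eq_one h1
  have h3 : r ∈ (⊥ : Subalgebra N K) := by rw [h2]; exact Algebra.mem_top
  obtain ⟨r₀, rfl⟩ := Algebra.mem_bot.1 h3
  have hlo := Pool.Agent.K7.H56.U.lo_lies (F := N) w
  set v₀ := Pool.Agent.K7.H56.U.lo N w with hv₀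
  have h3v : (3 : 𝓞 N) ∈ v₀.asIdeal := by
    have := (nat_lo (F := N) w 3).2 (by exact_mod_cast hw)
    exact_mod_cast this
  have e1 : algebraMap N K (1 + 4 * r₀ ^ 3) = 1 + 4 * algebraMap N K r₀ ^ 3 := by
    rw [map_add, map_one, map_mul, map_ofNat, map_pow]
  have h4 := HeightOneSpectrum.valuation_liesOver K v₀ w (3 : N)
  have h5 := HeightOneSpectrum.valuation_liesOver K v₀ w (1 + 4 * r₀ ^ 3)
  rw [map_ofNat (algebraMap N K)] at h4
  rw [e1] at h5
  have hne : v₀.asIdeal.ramificationIdx' w.asIdeal ≠ 0 :=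
    Ideal.IsDedekindDomain.ramificationIdx'_ne_zero_of_liesOver w.asIdeal v₀.ne_bot
  rw [← h4, ← h5, ← pow_mul, ← pow_mul, mul_comm _ 3, mul_comm _ 2, pow_mul, pow_mul]
  exact pow_lt_pow_left₀ (h v₀ h3v r₀) zero_le hne

/-- **towers** -/
theorem rel_tower5 (hNU : NgUp) (hLc : Lc3) {N G : Type} [Field N] [NumberField N] [Field G]
    [NumberField G] [Algebra N G] [IsGalois N G] {r : ℕ} (hr : Module.finrank N G = 2 ^ r)
    (hN3 : NG N) (m : ℕ) :
    ∀ (K : Type) [Field K] [NumberField K] [Algebra N K], (K →ₐ[N] G) →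
      Module.finrank N K = 2 ^ m → Unr2 K → Rel2 N K ∧ NG K := by
  induction m with
  | zero =>
    intro K _ _ _ φ h1 hU
    have hgal : IsGalois N K := gal1 (by rw [h1, pow_zero])
    have h3 : NG K := ng_deg1 (by rw [h1, pow_zero]) hN3
    exact ⟨rel_quad5 hNU hLc h1 hU h3, h3⟩
  | succ m ih =>
    intro K _ _ _ φ h1 hU
    obtain ⟨N', h2, h4⟩ := exists_mid (K := G) h1 hr φ
    let _ : Algebra N' G := (φ.comp N'.val).toRingHom.toAlgebra
    have hFNK : IsScalarTower N N' G :=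
      IsScalarTower.of_algebraMap_eq fun x => ((φ.comp N'.val).commutes x).symm
    have hNC : NC N N' := nc_of_tower (K := G) hr
    have hgal : IsGalois N' K := gal2' h4
    obtain ⟨hR1, h3N'⟩ := ih N' (φ.comp N'.val) h2 (unr2_down (K := K) hU)
    have h3 : NG K := hNU N' K h4 h3N'
    have hR2 : Rel2 N' K := rel_quad5 hNU hLc (r := 1) (by rw [h4, pow_one]) hU h3
    exact ⟨rel_trans5 hNU hNC hU h3 hR1 hR2, h3⟩

/-- **towers, any subfield of a Galois extension of 2-power degree** -/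
theorem rel_all5 (hNU : NgUp) (hLc : Lc3) {N K G : Type} [Field N] [NumberField N] [Field K]
    [NumberField K] [Field G]
    [NumberField G] [Algebra N K] [Algebra K G] [Algebra N G] [IsScalarTower N K G] [IsGalois N G]
    (hG : ∃ n : ℕ, Module.finrank N G = 2 ^ n) (hU : Unr2 K) (h3 : NG N) :
    Rel2 N K ∧ NG K := by
  obtain ⟨r, hr⟩ := hG
  have h1 : Module.finrank N K ∣ 2 ^ r := by
    rw [← hr, ← Module.finrank_mul_finrank N K G]
    exact Dvd.intro _ rfl
  obtain ⟨m, -, hm⟩ := (Nat.dvd_prime_pow Nat.prime_two).1 h1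
  exact rel_tower5 hNU hLc hr h3 m K (IsScalarTower.toAlgHom N K G) hm hU

end Pool.Agent.K7.H56.U2
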