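import Pool.Agent.K7.H56.U2.E
import Pool.Agent.K7.H73.L3.H
import Pool.Agent.K7.H89.U.Three
import Pool.Agent.K7.H56.U.V

/-!
# The two remaining facts, and the final forms
-/

set_option autoImplicit false

open NumberField IsDedekindDomain WeierstrassCurve
open scoped Classical

namespace Pool.Agent.K7.H56.U2

open Pool.Agent.K7.H70.SM (NG)
open Pool.Agent.K7.H56 (Unr2)

theorem ng_up : NgUp := fun _ _ _ _ _ _ _ h2 h => Pool.Agent.K7.H73.L3.ng_up h2 h

theorem lc3_true : Lc3 := fun _ _ _ _ _ _ hr hN hv3 hc =>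
  Pool.Agent.K7.H89.U.lc_three' hr hN _ hv3 hc

/-- the condition at three, if the ramification index is prime to three -/
theorem ng_mem {N : Type} [Field N] [NumberField N] (v : HeightOneSpectrum (𝓞 N))
    (h : ∀ n : ℕ, (3 : 𝓞 N) ∈ v.asIdeal ^ (3 * n) → (3 : 𝓞 N) ∈ v.asIdeal ^ (3 * n + 1)) (r : N) :
    v.valuation N 3 ^ 3 < v.valuation N (1 + 4 * r ^ 3) ^ 2 := by
  have h30 : (3 : 𝓞 N) ≠ 0 := by norm_num
  have e3 : (3 : N) = algebraMap (𝓞 N) N 3 := by rw [map_ofNat]
  have h1 := v.intValuation_if_neg h30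
  set e := (Associates.mk v.asIdeal).count (Associates.mk (Ideal.span {(3 : 𝓞 N)})).factors with he
  refine ng_val (v.valuation N) (e := e)
    (by rw [e3, HeightOneSpectrum.valuation_of_algebraMap, h1]) ?_ r
  rintro ⟨n, hn⟩
  have h2 : (3 : 𝓞 N) ∈ v.asIdeal ^ (3 * n) := by
    rw [← HeightOneSpectrum.intValuation_le_pow_iff_mem, h1, hn]
  have h3 := h n h2
  rw [← HeightOneSpectrum.intValuation_le_pow_iff_mem, h1, hn, WithZero.exp_le_exp] at h3
  push_cast at h3
  omega

/-- the condition at three, with two near to a cube -/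
theorem ng_cube {K : Type} [Field K] [NumberField K] {v : HeightOneSpectrum (𝓞 K)}
    (hv : (3 : 𝓞 K) ∈ v.asIdeal)
    (h : ∀ x : K, v.valuation K (3 ^ 3) < v.valuation K (x ^ 3 - 2) ^ 2) (r : K) :
    v.valuation K 3 ^ 3 < v.valuation K (1 + 4 * r ^ 3) ^ 2 := by
  have h1 := h (-2 * r)
  have h2 : v.valuation K (2 : K) = 1 := by
    have e2 : (2 : K) = algebraMap (𝓞 K) K 2 := by rw [map_ofNat]
    rw [e2, HeightOneSpectrum.valuation_of_algebraMap]
    refine HeightOneSpectrum.intValuation_eq_one_iff.2 fun h2 => ?_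
    have h1' : (1 : 𝓞 K) ∈ v.asIdeal := by
      have := v.asIdeal.sub_mem hv h2
      have e : (3 : 𝓞 K) - 2 = 1 := by norm_num
      rwa [e] at this
    exact v.isPrime.ne_top ((Ideal.eq_top_iff_one _).2 h1')
  have e : (-2 * r) ^ 3 - 2 = -2 * (1 + 4 * r ^ 3) := by ring
  rw [e, map_pow, map_mul, Valuation.map_neg, h2, one_mul] at h1
  exact h1

end Pool.Agent.K7.H56.U2
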