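import Pool.Agent.K7.H56.U2.F
import Pool.Agent.K7.H70.ST.B
import Pool.Agent.K7.H73.NM.N

/-!
# The subfields of the ninth cyclotomic field
-/

set_option autoImplicit false

open NumberField IsDedekindDomain WeierstrassCurve
open scoped Classical

namespace Pool.Agent.K7.H56.U2

open Pool.Agent.K7.H70.SM (NG gz9 ng_nine ng_small)
open Pool.Agent.K7.H70.ST (val9 selv9)
open Pool.Agent.K7.H56 (Unr2)
open Pool.Agent.K7.H56.U (S2 IsL xv sel_iff)
open Pool.Agent.K7.H56.P (Gd)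
open Pool.Agent.Y696 (IsPeriods)

/-- the base fields -/
structure Bs (M : Type) [Field M] [NumberField M] : Prop where
  ng : NG M
  two : Unr2 M
  sel : S2 M
  val : ∀ {L : ℂ → ℂ}, IsL M L → ∀ {Λ : PeriodPair} {ω : ℝ}, IsPeriods Λ ω →
    ∀ {Γ : Type} [LinearOrderedCommGroupWithZero Γ] {v : Valuation ℂ Γ}, v 2 < 1 →
      v (xv M Λ ω L) = 1

theorem bs9 {M C : Type} [Field M] [NumberField M] [Field C] [NumberField C]
    [IsCyclotomicExtension {9} ℚ C] [Algebra M C] : Bs M := by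
  have h1 : ∃ r : ℕ, Module.finrank C C = 2 ^ r := ⟨0, by rw [Module.finrank_self, pow_zero]⟩
  have hU : Unr2 M := Pool.Agent.K7.H56.M.unr2_down (F := M) (K := C) (gz9 C).two
  have hNG : NG M := ng_small (K := C) (ng_nine (M := C) (K := C) h1.choose_spec)
  have hS := selv9 (M := C) (K := C) h1 Pool.Agent.K7.H56.U.gd_self (k := M)
  obtain ⟨Lf, hL, hv⟩ := val9 (M := C) (K := C) (fun M _ _ _ ι => Pool.Agent.K7.H73.NM.base9 M ι)
    h1 Pool.Agent.K7.H56.U.gd_self (k := M)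
  refine ⟨hNG, hU, ?_, ?_⟩
  · refine (sel_iff (Pool.Agent.K7.H56.U.no_cube hU)).2 ⟨hS.fin, fun s hs => hS.sha s ?_⟩
    rw [← two_nsmul]
    exact hs
  · intro L hLL Λ ω hP Γ _ v hv2
    have h2 : IsL M Lf := ⟨hL.mero, hL.an, hL.sum⟩
    rw [Pool.Agent.K7.H56.U.xv_congr hLL h2]
    exact hv Λ ω hP Γ v hv2

end Pool.Agent.K7.H56.U2
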