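import Pool.Agent.K7.H56.U2.G
import Pool.Agent.K7.H73.L3.I

/-!
# The subfields of the good Galois 2-extensions of the third and of the ninth cyclotomic field
-/

set_option autoImplicit false

open NumberField IsDedekindDomain WeierstrassCurve
open scoped Classical

namespace Pool.Agent.K7.H56.U2

open Pool.Agent.K7.H70.SM (NG gz9 ng_nine ng_small)
open Pool.Agent.K7.H70.ST (val9 selv9 SelV Val2)
open Pool.Agent.K7.H56 (Unr2)
open Pool.Agent.K7.H56.U (S2 IsL xv sel_iff)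
open Pool.Agent.K7.H56.P (Gd)
open Pool.Agent.Y696 (IsPeriods)

theorem bs_of {M : Type} [Field M] [NumberField M] (hNG : NG M) (hU : Unr2 M) (hS : SelV M)
    (hV : Val2 M) : Bs M := by
  obtain ⟨Lf, hL, hv⟩ := hV
  refine ⟨hNG, hU, ?_, ?_⟩
  · refine (sel_iff (Pool.Agent.K7.H56.U.no_cube hU)).2 ⟨hS.fin, fun s hs => hS.sha s ?_⟩
    rw [← two_nsmul]
    exact hs
  · intro L hLL Λ ω hP Γ _ v hv2
    have h2 : IsL M Lf := ⟨hL.mero, hL.an, hL.sum⟩
    rw [Pool.Agent.K7.H56.U.xv_congr hLL h2]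
    exact hv Λ ω hP Γ v hv2

section
variable {C L M : Type} [Field C] [NumberField C] [Field L] [NumberField L] [Algebra C L]
  [IsGalois C L] [Field M] [NumberField M] [Algebra M L]

theorem bs_three [IsCyclotomicExtension {3} ℚ C] (hr : ∃ r : ℕ, Module.finrank C L = 2 ^ r)
    (hG : Gd C L) : Bs M := by
  have h2 : Unr2 M := by
    obtain ⟨r, hr⟩ := hr
    exact Pool.Agent.K7.H56.M.unr2_down (F := M) (K := L)
      ((Pool.Agent.K7.H73.L3.gz3 (F := C)).step hr hG).two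
  exact bs_of (Pool.Agent.K7.H73.L3.ngs3 (F := C) (K := L) hr) h2
    (Pool.Agent.K7.H73.L3.selv3 (F := C) (K := L) hr hG)
    (Pool.Agent.K7.H73.L3.val3 (F := C) (K := L) hr hG)

theorem bs_nine [IsCyclotomicExtension {9} ℚ C] (hr : ∃ r : ℕ, Module.finrank C L = 2 ^ r)
    (hG : Gd C L) : Bs M := by
  have h2 : Unr2 M := by
    obtain ⟨r, hr⟩ := hr
    exact Pool.Agent.K7.H56.M.unr2_down (F := M) (K := L) ((gz9 C).step hr hG).two
  have h3 : NG M := by
    obtain ⟨r, hr⟩ := hr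
    exact ng_small (K := L) (ng_nine (M := C) hr)
  exact bs_of h3 h2 (selv9 (M := C) (K := L) hr hG)
    (val9 (M := C) (K := L) (fun M _ _ _ ι => Pool.Agent.K7.H73.NM.base9 M ι) hr hG)

end

end Pool.Agent.K7.H56.U2
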